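import Pool.Agent.H4.OG.Ind

set_option autoImplicit false

/-!
The group `(G × G) ⋊ ℤ` and its subgroup of index two.
-/

namespace Pool.Agent.H4.OG

open CategoryTheory Pool.Agent.Y75.NK Pool.Agent.H84.W Pool.Agent.H4.Reg

section

variable (G : Type) [Group G]

/-- The interchange of the factors of `G × G`. -/
def sw : MulAut (G × G) := MulEquiv.prodComm

theorem sw_sw (x : G × G) : sw G (sw G x) = x := rfl

/-- The action of `ℤ`. -/
def phi : Multiplicative ℤ →* MulAut (G × G) := zpowersHom _ (sw G)

theorem phi_even (k : ℤ) : phi G (Multiplicative.ofAdd (2 * k)) = 1 := by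
  unfold phi
  rw [zpowersHom_apply, toAdd_ofAdd, zpow_mul]
  have : (sw G) ^ (2 : ℤ) = 1 := by
    ext x <;> rfl
  rw [this, one_zpow]

/-- The group `(G × G) ⋊ ℤ`. -/
abbrev VV : Type := (G × G) ⋊[phi G] Multiplicative ℤ

/-- The parity of the second component. -/
def par : VV G →* Multiplicative (ZMod 2) :=
  (AddMonoidHom.toMultiplicative (Int.castAddHom (ZMod 2))).comp SemidirectProduct.rightHom

theorem par_surjective : Function.Surjective (par G) := by
  intro z
  refine ⟨SemidirectProduct.inr (Multiplicative.ofAdd (Multiplicative.toAdd z).val), ?_⟩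
  change Multiplicative.ofAdd (((Multiplicative.toAdd z).val : ℤ) : ZMod 2) = z
  simp

/-- The subgroup `(G × G) × 2ℤ` of index two. -/
def LL : Subgroup (VV G) := (par G).ker

theorem LL_index : (LL G).index = 2 := by
  unfold LL
  rw [Subgroup.index_ker, MonoidHom.range_eq_top.2 (par_surjective G)]
  simp [Nat.card_eq_fintype_card]

theorem phi_LL (v : VV G) (hv : v ∈ LL G) : phi G v.right = 1 := by
  have h1 : ((Multiplicative.toAdd v.right : ℤ) : ZMod 2) = 0 := hv
  rw [ZMod.intCast_zmod_eq_zero_iff_dvd] at h1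
  obtain ⟨k, hk⟩ := h1
  have h2 : v.right = Multiplicative.ofAdd (2 * k) := congrArg Multiplicative.ofAdd hk
  rw [h2, phi_even]

/-- The retraction. -/
def pL : LL G →* G where
  toFun v := v.1.left.1
  map_one' := rfl
  map_mul' v w := by
    change (v.1.left * (phi G v.1.right) w.1.left).1 = _
    rw [phi_LL G v.1 v.2]
    rfl

/-- The embedding of the first factor. -/
def i1 : G →* LL G :=
  ((SemidirectProduct.inl : G × G →* VV G).comp (MonoidHom.inl G G)).codRestrict (LL G) (by
    intro x
    change par G _ = 1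
    simp [par])

/-- The embedding of the second factor. -/
def i2 : G →* LL G :=
  ((SemidirectProduct.inl : G × G →* VV G).comp (MonoidHom.inr G G)).codRestrict (LL G) (by
    intro x
    change par G _ = 1
    simp [par])

theorem pL_i1 : (pL G).comp (i1 G) = MonoidHom.id G := rfl

theorem pL_i2 : (pL G).comp (i2 G) = 1 := rfl

theorem conj_i (x : G) : (LL G).subtype (i2 G x) =
    SemidirectProduct.inr (Multiplicative.ofAdd 1) * (LL G).subtype (i1 G x) *
      (SemidirectProduct.inr (Multiplicative.ofAdd 1))⁻¹ := by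
  rw [← map_inv]
  change (SemidirectProduct.inl (1, x) : VV G) = _ * SemidirectProduct.inl (x, 1) * _
  rw [← SemidirectProduct.inl_aut]
  congr 1

theorem VV_tf (hG : TF G) : TF (VV G) := by
  intro v hv
  have h1 := tf_int _ (MonoidHom.isOfFinOrder (SemidirectProduct.rightHom (φ := phi G)) hv)
  have h2 : v = SemidirectProduct.inl v.left := by
    ext
    · rfl
    · rfl
    · exact h1
  rw [h2] at hv
  have h3 : IsOfFinOrder v.left :=
    (SemidirectProduct.inl_injective.isOfFinOrder_iff (f := (SemidirectProduct.inl :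
      G × G →* VV G))).1 hv
  have h4 := prod_tf hG hG v.left h3
  rw [h2, h4, map_one]

end

theorem const_of_inj (R : Type) [Ring R] (m : ℕ) (G : Type) [Group G]
    (h : Function.Injective (kmap R m (LL G).subtype)) : Const R m G := by
  intro x
  have h1 : kmap R m (LL G).subtype (kmap R m (i2 G) x) =
      kmap R m (LL G).subtype (kmap R m (i1 G) x) := by
    rw [← kmap_comp, ← kmap_comp]
    exact kmap_conj R m _ _ (SemidirectProduct.inr (Multiplicative.ofAdd 1)) (conj_i G) x
  have h2 := congrArg (kmap R m (pL G)) (h h1)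
  rw [← kmap_comp, ← kmap_comp, pL_i1, pL_i2, kmap_id] at h2
  have h3 : (1 : G →* G) = (1 : Unit →* G).comp (1 : G →* Unit) := rfl
  rw [h3, kmap_comp] at h2
  exact ⟨_, h2⟩

end Pool.Agent.H4.OG
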