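import Pool.Agent.H4.OG.Shift
import Pool.Agent.H4.Reg.Cl

set_option autoImplicit false

/-!
Change of the coefficient ring: countable regular rings suffice.
-/

namespace Pool.Agent.H4.OG

open CategoryTheory Pool.Agent.Y75.NK Pool.Agent.H84.W Pool.Agent.H4.Reg

theorem lau_injective : ∀ (m : ℕ) {B A : RingCat.{0}} (φ : B ⟶ A), Function.Injective φ.hom →
    Function.Injective ((lau m).map φ).hom
  | 0, _, _, _, h => h
  | m + 1, B, A, φ, h => by
    refine lau_injective m ((monF (Multiplicative ℤ)).map φ) ?_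
    exact MonoidAlgebra.map_injective φ.hom.toAddMonoidHom h

theorem mapRing_range {A B M : Type} [Ring A] [Ring B] [Monoid M] (φ : B →+* A)
    (x : MonoidAlgebra A M) (h : ∀ i, x.coeff i ∈ Set.range φ) :
    x ∈ Set.range (MonoidAlgebra.mapRingHom M φ) := by
  have h1 := MonoidAlgebra.range_map (M := M) φ.toAddMonoidHom
  have h2 : x ∈ {x : MonoidAlgebra A M | ∀ i, x.coeff i ∈ Set.range φ.toAddMonoidHom} := h
  rw [← h1] at h2
  exact h2

/-- The finite set of coefficients of the elements of a finite set. -/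
theorem exists_coeffs {A M : Type} [Ring A] [Monoid M] (D : Set (MonoidAlgebra A M))
    (hD : D.Finite) : ∃ D' : Set A, D'.Finite ∧ ∀ (B : Type) [Ring B] (φ : B →+* A),
      D' ⊆ Set.range φ → D ⊆ Set.range (MonoidAlgebra.mapRingHom M φ) := by
  refine ⟨insert 0 (⋃ x ∈ D, x.coeff '' (x.coeff.support : Set M)), ?_, ?_⟩
  · refine Set.Finite.insert 0 (hD.biUnion fun x _ => Set.Finite.image _ (Finset.finite_toSet _))
  · intro B _ φ h x hx
    apply mapRing_range
    intro i
    apply h
    by_cases hi : x.coeff i = 0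
    · rw [hi]
      exact Set.mem_insert _ _
    · refine Set.mem_insert_of_mem _ (Set.mem_biUnion hx ⟨i, ?_, rfl⟩)
      exact Finsupp.mem_support_iff.2 hi

theorem lau_coeffs : ∀ (m : ℕ) (A : RingCat.{0}) (D : Set ((lau m).obj A)), D.Finite →
    ∃ D' : Set A, D'.Finite ∧ ∀ (B : RingCat.{0}) (φ : B ⟶ A),
      D' ⊆ Set.range φ.hom → D ⊆ Set.range ((lau m).map φ).hom
  | 0, _, D, hD => ⟨D, hD, fun _ _ h => h⟩
  | m + 1, A, D, hD => by
    obtain ⟨D1, h1, h2⟩ := lau_coeffs m ((monF (Multiplicative ℤ)).obj A) D hD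
    obtain ⟨D2, h3, h4⟩ := exists_coeffs (A := A) (M := Multiplicative ℤ) D1 h1
    refine ⟨D2, h3, fun B φ h => ?_⟩
    exact h2 _ ((monF (Multiplicative ℤ)).map φ) (h4 B φ.hom h)

theorem lift_inj {A B : Type} [Ring A] [Ring B] (φ : B →+* A) (hφ : Function.Injective φ)
    (e : Idem A) (h : ∀ i j, e.e i j ∈ Set.range φ) : ∃ e' : Idem B, e'.map φ = e := by
  choose f hf using h
  obtain ⟨n, M, hM⟩ := e
  have h1 : (Matrix.of f).map φ = M := by
    ext i j
    exact hf i j
  refine ⟨⟨n, Matrix.of f, ?_⟩, ?_⟩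
  · apply Matrix.map_injective hφ
    change (Matrix.of f * Matrix.of f).map φ = (Matrix.of f).map φ
    rw [Matrix.map_mul, h1, hM]
  · unfold Idem.map
    congr 1

section

variable (R : Type) [Ring R] (m : ℕ) (G : Type) [Group G]

/-- Change of the coefficient ring. -/
noncomputable def bc {S R : Type} [Ring S] [Ring R] (f : S →+* R) (m : ℕ) (G : Type) [Group G] :
    KG S m G →+ KG R m G :=
  ((Kneg m).map (RingCat.ofHom (MonoidAlgebra.mapRingHom G f))).hom

theorem bc_kmap {S R : Type} [Ring S] [Ring R] (f : S →+* R) (m : ℕ) {G H : Type} [Group G]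
    [Group H] (g : G →* H) (x : KG S m G) :
    bc f m H (kmap S m g x) = kmap R m g (bc f m G x) := by
  have h : RingCat.ofHom (MonoidAlgebra.mapDomainRingHom S g) ≫
      RingCat.ofHom (MonoidAlgebra.mapRingHom H f) =
      RingCat.ofHom (MonoidAlgebra.mapRingHom G f) ≫
      RingCat.ofHom (MonoidAlgebra.mapDomainRingHom R g) := by
    apply RingCat.hom_ext
    apply RingHom.ext
    intro x
    change MonoidAlgebra.mapRingHom H f (MonoidAlgebra.mapDomainRingHom S g x) =
      MonoidAlgebra.mapDomainRingHom R g (MonoidAlgebra.mapRingHom G f x)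
    induction x using MonoidAlgebra.induction_linear with
    | zero => simp only [map_zero]
    | add x y hx hy => simp only [map_add, hx, hy]
    | single m a => simp
  exact (map_comp2 (Kneg m) _ _ x).symm.trans
    ((congrArg (fun g => ((Kneg m).map g).hom x) h).trans (map_comp2 (Kneg m) _ _ x))

/-- The classes induced from countable regular subrings generate. -/
theorem mem_of_countable (hR : Regular R) (N : AddSubgroup (KG R m G))
    (h : ∀ (S : Subring R), Countable S → Regular S → ∀ x : KG S m G, bc S.subtype m G x ∈ N) :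
    N = ⊤ := by
  have hN := hR.noeth
  let pr : K0 ((lau m).obj (RingCat.of (MonoidAlgebra R G))) →+ KG R m G :=
    ((projT m).app (RingCat.of (MonoidAlgebra R G))).hom
  have h1 : ∀ e : Idem ((lau m).obj (RingCat.of (MonoidAlgebra R G))), pr (cls e) ∈ N := by
    intro e
    obtain ⟨D, hD, h2⟩ := lau_coeffs m (RingCat.of (MonoidAlgebra R G))
      (Set.range fun ij : _ × _ => e.e ij.1 ij.2) (Set.finite_range _)
    obtain ⟨D', hD', h3⟩ := exists_coeffs (A := R) (M := G) D hD
    obtain ⟨S, hS, hS2, hS3⟩ := exists_countable_regular R hR D' hD'.countable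
    let φ : RingCat.of (MonoidAlgebra S G) ⟶ RingCat.of (MonoidAlgebra R G) :=
      RingCat.ofHom (MonoidAlgebra.mapRingHom G S.subtype)
    have h4 : D ⊆ Set.range φ.hom := h3 S S.subtype (by simpa using hS)
    have h5 := h2 _ φ h4
    have h6 : Function.Injective φ.hom :=
      MonoidAlgebra.map_injective S.subtype.toAddMonoidHom (Subring.subtype_injective S)
    obtain ⟨e', rfl⟩ := lift_inj ((lau m).map φ).hom (lau_injective m φ h6) e
      (fun i j => h5 ⟨(i, j), rfl⟩)
    have h7 := h S hS2 hS3 (((projT m).app (RingCat.of (MonoidAlgebra S G))).hom (cls e'))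
    have h8 := congrArg (fun g => g.hom (cls e')) ((projT m).naturality φ)
    have h9 : pr (cls (e'.map ((lau m).map φ).hom)) = bc S.subtype m G
        (((projT m).app (RingCat.of (MonoidAlgebra S G))).hom (cls e')) := h8
    rw [h9]
    exact h7
  have key : FreeAbelianGroup.lift (fun e => pr (cls e)) =
      pr.comp (QuotientAddGroup.mk' (rel _)) := by
    apply FreeAbelianGroup.lift_ext
    intro e
    rw [FreeAbelianGroup.lift_apply_of]
    rfl
  have main : ∀ x, FreeAbelianGroup.lift (fun e => pr (cls e)) x ∈ N := by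
    intro x
    induction x using FreeAbelianGroup.induction_on with
    | zero => rw [map_zero]; exact N.zero_mem
    | of e =>
      rw [FreeAbelianGroup.lift_apply_of]
      exact h1 e
    | neg e he => rw [map_neg]; exact N.neg_mem he
    | add a b ha hb => rw [map_add]; exact N.add_mem ha hb
  rw [eq_top_iff]
  intro y _
  obtain ⟨x, rfl⟩ := projT_surj m (RingCat.of (MonoidAlgebra R G)) y
  obtain ⟨x, rfl⟩ := QuotientAddGroup.mk'_surjective _ x
  have := main x
  rw [key] at this
  exact this

/-- Vanishing for countable regular rings implies vanishing for regular rings. -/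
theorem zero_countable (h : ∀ (S : Type) [Ring S], Countable S → Regular S →
    Subsingleton (KG S m G)) (hR : Regular R) : Subsingleton (KG R m G) := by
  have h1 : (⊥ : AddSubgroup (KG R m G)) = ⊤ := by
    refine mem_of_countable R m G hR _ ?_
    intro S h1 h2 x
    have h3 : x = 0 := @Subsingleton.elim _ (h S h1 h2) _ _
    rw [h3, map_zero]
    exact AddSubgroup.zero_mem _
  refine ⟨fun a b => ?_⟩
  have ha : a ∈ (⊥ : AddSubgroup (KG R m G)) := by rw [h1]; trivial
  have hb : b ∈ (⊥ : AddSubgroup (KG R m G)) := by rw [h1]; trivial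
  rw [AddSubgroup.mem_bot.1 ha, AddSubgroup.mem_bot.1 hb]

theorem const_countable (h : ∀ (S : Type) [Ring S], Countable S → Regular S → Const S m G)
    (hR : Regular R) : Const R m G := by
  have h1 : (kmap R m (1 : Unit →* G)).range = ⊤ := by
    refine mem_of_countable R m G hR _ ?_
    intro S h1 h2 x
    obtain ⟨z, rfl⟩ := h S h1 h2 x
    exact ⟨bc S.subtype m Unit z, (bc_kmap S.subtype m 1 z).symm⟩
  exact AddMonoidHom.range_eq_top.1 h1

end

end Pool.Agent.H4.OG
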