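import Pool.Agent.H4.OG.Lift
import Pool.Agent.H84.W.Gen

set_option autoImplicit false

/-!
The negative `K`-groups of group rings of torsion-free groups are decided by one group.
-/

namespace Pool.Agent.H4.OG

open CategoryTheory Pool.Agent.Y75.NK Pool.Agent.H84.W

/-- The group `K_{-m}(R[G])`. -/
abbrev KG (R : Type) [Ring R] (m : ℕ) (G : Type) [Group G] : Type :=
  (Kneg m).obj (RingCat.of (MonoidAlgebra R G))

section

variable (R : Type) [Ring R] (m : ℕ)

/-- The homomorphism `K_{-m}(R[G]) → K_{-m}(R[H])` induced by a homomorphism `G → H`. -/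
noncomputable def kmap {G H : Type} [Group G] [Group H] (f : G →* H) : KG R m G →+ KG R m H :=
  ((Kneg m).map (RingCat.ofHom (MonoidAlgebra.mapDomainRingHom R f))).hom

theorem kmap_id (G : Type) [Group G] (x : KG R m G) : kmap R m (MonoidHom.id G) x = x := by
  have h : RingCat.ofHom (MonoidAlgebra.mapDomainRingHom R (MonoidHom.id G)) =
      𝟙 (RingCat.of (MonoidAlgebra R G)) := by
    apply RingCat.hom_ext
    exact MonoidAlgebra.mapDomainRingHom_id
  unfold kmap
  rw [h, CategoryTheory.Functor.map_id]
  rfl

theorem kmap_comp {G H K : Type} [Group G] [Group H] [Group K] (g : H →* K) (f : G →* H)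
    (x : KG R m G) : kmap R m (g.comp f) x = kmap R m g (kmap R m f x) := by
  have h : RingCat.ofHom (MonoidAlgebra.mapDomainRingHom R (g.comp f)) =
      RingCat.ofHom (MonoidAlgebra.mapDomainRingHom R f) ≫
        RingCat.ofHom (MonoidAlgebra.mapDomainRingHom R g) := by
    apply RingCat.hom_ext
    exact MonoidAlgebra.mapDomainRingHom_comp _ _
  unfold kmap
  rw [h, CategoryTheory.Functor.map_comp]
  rfl

/-- The map `K_{-m}(R) → K_{-m}(R[G])` induced by the trivial subgroup is surjective. -/
def Const (G : Type) [Group G] : Prop :=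
  Function.Surjective (kmap R m (1 : Unit →* G))

theorem const_retr {G B : Type} [Group G] [Group B] (i : G →* B) (r : B →* G)
    (h : ∀ x, r (i x) = x) (hB : Const R m B) : Const R m G := by
  intro y
  obtain ⟨x, hx⟩ := hB (kmap R m i y)
  refine ⟨x, ?_⟩
  have h1 : r.comp (1 : Unit →* B) = 1 := by ext; simp
  have h2 : r.comp i = MonoidHom.id G := MonoidHom.ext h
  rw [← h1, kmap_comp, hx, ← kmap_comp, h2, kmap_id]

/-- The canonical surjection from `K₀(R[ℤᵐ × G])` to `K_{-m}(R[G])`. -/
noncomputable def kcl (G : Type) [Group G] :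
    K0 (MonoidAlgebra R ((EF m).obj (GrpCat.of G))) →+ KG R m G :=
  ((kclT R m).app (GrpCat.of G)).hom

theorem kcl_surj (G : Type) [Group G] : Function.Surjective (kcl R m G) :=
  kclT_surj R m (GrpCat.of G)

theorem kcl_lift (G : Type) [Group G] (e : Idem (MonoidAlgebra R ((EF m).obj (GrpCat.of G)))) :
    ∃ (P : Type) (_ : Group P) (_ : Group.IsFinitelyPresented P) (f : P →* G) (x : KG R m P),
      kmap R m f x = kcl R m G (cls e) := by
  obtain ⟨P, i1, i2, f, x, hx⟩ := kclT_lift R m (GrpCat.of G) e
  exact ⟨P, i1, i2, f, x, hx⟩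

/-- The classes induced from finitely presented groups generate. -/
theorem kcl_mem (G : Type) [Group G] (N : AddSubgroup (KG R m G))
    (h : ∀ (P : Type) [Group P] [Group.IsFinitelyPresented P] (f : P →* G) (x : KG R m P),
      kmap R m f x ∈ N) : N = ⊤ := by
  have key : FreeAbelianGroup.lift (fun e => kcl R m G (cls e)) =
      (kcl R m G).comp (QuotientAddGroup.mk' (rel _)) := by
    apply FreeAbelianGroup.lift_ext
    intro e
    rw [FreeAbelianGroup.lift_apply_of]
    rfl
  have main : ∀ x, FreeAbelianGroup.lift (fun e => kcl R m G (cls e)) x ∈ N := by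
    intro x
    induction x using FreeAbelianGroup.induction_on with
    | zero => rw [map_zero]; exact N.zero_mem
    | of e =>
      rw [FreeAbelianGroup.lift_apply_of]
      obtain ⟨P, _, _, f, x, hx⟩ := kcl_lift R m G e
      rw [← hx]
      exact h P f x
    | neg e he => rw [map_neg]; exact N.neg_mem he
    | add a b ha hb => rw [map_add]; exact N.add_mem ha hb
  rw [eq_top_iff]
  intro y _
  obtain ⟨x, rfl⟩ := kcl_surj R m G y
  obtain ⟨x, rfl⟩ := QuotientAddGroup.mk'_surjective _ x
  have := main x
  rw [key] at this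
  exact this

/-- If constant classes are all classes for the torsion-free quotients of the finitely presented
groups, then for all torsion-free groups. -/
theorem const_colim (h : ∀ (P : Type) [Group P] [Group.IsFinitelyPresented P], Const R m (TFQ P))
    (G : Type) [Group G] (hG : TF G) : Const R m G := by
  have h1 : (kmap R m (1 : Unit →* G)).range = ⊤ := by
    refine kcl_mem R m G _ ?_
    intro P _ _ f x
    obtain ⟨z, hz⟩ := h P (kmap R m (QuotientGroup.mk' (tfcl ∅)) x)
    refine ⟨z, ?_⟩
    have h2 : (TFQ.lift hG f).comp (QuotientGroup.mk' (tfcl ∅)) = f := by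
      ext x
      rfl
    have h3 : (TFQ.lift hG f).comp (1 : Unit →* TFQ P) = 1 := by ext; simp
    rw [← h3, kmap_comp, hz, ← kmap_comp, h2]
  exact AddMonoidHom.range_eq_top.1 h1

/-- If all classes for the torsion-free quotients of the finitely presented groups vanish, then for
all torsion-free groups. -/
theorem zero_colim
    (h : ∀ (P : Type) [Group P] [Group.IsFinitelyPresented P], Subsingleton (KG R m (TFQ P)))
    (G : Type) [Group G] (hG : TF G) : Subsingleton (KG R m G) := by
  have h1 : (⊥ : AddSubgroup (KG R m G)) = ⊤ := by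
    refine kcl_mem R m G _ ?_
    intro P _ _ f x
    have h2 : (TFQ.lift hG f).comp (QuotientGroup.mk' (tfcl ∅)) = f := by
      ext x
      rfl
    have h3 : kmap R m (QuotientGroup.mk' (tfcl (∅ : Set P))) x = 0 :=
      @Subsingleton.elim _ (h P) _ _
    rw [← h2, kmap_comp, h3, map_zero]
    exact AddSubgroup.zero_mem _
  refine ⟨fun a b => ?_⟩
  have ha : a ∈ (⊥ : AddSubgroup (KG R m G)) := by rw [h1]; trivial
  have hb : b ∈ (⊥ : AddSubgroup (KG R m G)) := by rw [h1]; trivial
  rw [AddSubgroup.mem_bot.1 ha, AddSubgroup.mem_bot.1 hb]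

theorem zero_retr {G B : Type} [Group G] [Group B] (i : G →* B) (r : B →* G)
    (h : ∀ x, r (i x) = x) (hB : Subsingleton (KG R m B)) : Subsingleton (KG R m G) := by
  refine ⟨fun a b => ?_⟩
  have h2 : r.comp i = MonoidHom.id G := MonoidHom.ext h
  have h3 : kmap R m i a = kmap R m i b := Subsingleton.elim _ _
  rw [← kmap_id R m G a, ← kmap_id R m G b, ← h2, kmap_comp, kmap_comp, h3]

end

end Pool.Agent.H4.OG
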