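import Pool.Agent.H4.OG.Main

set_option autoImplicit false

/-!
Inner automorphisms, and induction from subgroups of index two.
-/

namespace Pool.Agent.H4.OG

open CategoryTheory Pool.Agent.Y75.NK Pool.Agent.H84.W Pool.Agent.H4.Reg

/-- Conjugation by a unit. -/
def cj {A : Type} [Ring A] (u : Aˣ) : A →+* A where
  toFun x := u.1 * x * u⁻¹.1
  map_one' := by simp
  map_mul' x y := by
    have : u⁻¹.1 * u.1 = 1 := u.inv_mul
    calc u.1 * (x * y) * u⁻¹.1 = u.1 * x * 1 * y * u⁻¹.1 := by simp [mul_assoc]
      _ = u.1 * x * (u⁻¹.1 * u.1) * y * u⁻¹.1 := by rw [this]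
      _ = _ := by simp only [mul_assoc]
  map_zero' := by simp
  map_add' x y := by rw [mul_add, add_mul]

theorem K0_cj {A : Type} [Ring A] (u : Aˣ) : K0.map (cj u) = AddMonoidHom.id (K0 A) := by
  apply K0.hom_ext
  intro e
  rw [K0.map_cls]
  apply cls_eq
  obtain ⟨n, M, hM⟩ := e
  have h0 : u⁻¹.1 * u.1 = 1 := u.inv_mul
  refine ⟨Matrix.of fun i j => u.1 * M i j, Matrix.of fun i j => M i j * u⁻¹.1, ?_, ?_⟩
  · refine Matrix.ext fun i j => ?_
    change ∑ k, (u.1 * M i k) * (M k j * u⁻¹.1) = u.1 * M i j * u⁻¹.1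
    have h1 : ∑ k, M i k * M k j = M i j := by
      conv_rhs => rw [← hM]
      rfl
    rw [← h1, Finset.mul_sum, Finset.sum_mul]
    exact Finset.sum_congr rfl fun k _ => by simp only [mul_assoc]
  · refine Matrix.ext fun i j => ?_
    change ∑ k, (M i k * u⁻¹.1) * (u.1 * M k j) = M i j
    have h1 : ∑ k, M i k * M k j = M i j := by
      conv_rhs => rw [← hM]
      rfl
    rw [← h1]
    refine Finset.sum_congr rfl fun k _ => ?_
    calc M i k * u⁻¹.1 * (u.1 * M k j) = M i k * (u⁻¹.1 * u.1) * M k j := by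
          simp only [mul_assoc]
      _ = _ := by rw [h0, mul_one]

/-- Inner automorphisms act trivially. -/
theorem Kneg_cj : ∀ (m : ℕ) (A : RingCat.{0}) (u : Aˣ) (x : (Kneg m).obj A),
    ((Kneg m).map (RingCat.ofHom (cj u) : A ⟶ A)).hom x = x
  | 0, A, u, x => congrArg (fun f => f x) (K0_cj u)
  | m + 1, A, u, x => by
    obtain ⟨y, rfl⟩ := QuotientAddGroup.mk'_surjective _ x
    let v : ((monF (Multiplicative ℤ)).obj A)ˣ := Units.map
      (MonoidAlgebra.singleOneRingHom : A →+* MonoidAlgebra A (Multiplicative ℤ)).toMonoidHom u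
    have h1 : (monF (Multiplicative ℤ)).map (RingCat.ofHom (cj u) : A ⟶ A) =
        RingCat.ofHom (cj v) := by
      apply RingCat.hom_ext
      apply RingHom.ext
      intro (z : MonoidAlgebra A (Multiplicative ℤ))
      change MonoidAlgebra.mapRingHom (Multiplicative ℤ) (cj u) z =
        (MonoidAlgebra.single 1 u.1 * z * MonoidAlgebra.single 1 u⁻¹.1 :
          MonoidAlgebra A (Multiplicative ℤ))
      induction z using MonoidAlgebra.induction_linear with
      | zero => simp
      | add x y hx hy => rw [map_add, hx, hy, mul_add, add_mul]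
      | single m a =>
        rw [MonoidAlgebra.single_mul_single, MonoidAlgebra.single_mul_single, one_mul, mul_one]
        simp [cj]
    have h2 := Kneg_cj m _ v y
    refine congrArg (QuotientAddGroup.mk' (polySub (Kneg m) A)) ?_
    refine Eq.trans ?_ h2
    exact congrArg (fun g => ((Kneg m).map g).hom y) h1

/-- Conjugate homomorphisms induce the same map. -/
theorem kmap_conj (R : Type) [Ring R] (m : ℕ) {G V : Type} [Group G] [Group V] (f g : G →* V)
    (t : V) (h : ∀ x, g x = t * f x * t⁻¹) (x : KG R m G) : kmap R m g x = kmap R m f x := by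
  let u : (MonoidAlgebra R V)ˣ :=
    ⟨MonoidAlgebra.single t 1, MonoidAlgebra.single t⁻¹ 1, by
      rw [MonoidAlgebra.single_mul_single, mul_inv_cancel, mul_one]; rfl, by
      rw [MonoidAlgebra.single_mul_single, inv_mul_cancel, mul_one]; rfl⟩
  have h1 : RingCat.ofHom (MonoidAlgebra.mapDomainRingHom R g) =
      RingCat.ofHom (MonoidAlgebra.mapDomainRingHom R f) ≫
        (RingCat.ofHom (cj u) : RingCat.of (MonoidAlgebra R V) ⟶ _) := by
    apply RingCat.hom_ext
    apply RingHom.ext
    intro z
    change MonoidAlgebra.mapDomainRingHom R g z =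
      MonoidAlgebra.single t 1 * MonoidAlgebra.mapDomainRingHom R f z *
        MonoidAlgebra.single t⁻¹ 1
    induction z using MonoidAlgebra.induction_linear with
    | zero => simp
    | add x y hx hy => rw [map_add, map_add, hx, hy, mul_add, add_mul]
    | single m a =>
      rw [MonoidAlgebra.mapDomainRingHom_apply, MonoidAlgebra.mapDomainRingHom_apply,
        MonoidAlgebra.mapDomain_single, MonoidAlgebra.mapDomain_single,
        MonoidAlgebra.single_mul_single, MonoidAlgebra.single_mul_single, one_mul, mul_one, h]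
  have h2 := Kneg_cj m (RingCat.of (MonoidAlgebra R V)) u (kmap R m f x)
  refine Eq.trans ?_ h2
  exact (congrArg (fun g => ((Kneg m).map g).hom x) h1).trans (map_comp2 (Kneg m) _ _ x)

end Pool.Agent.H4.OG
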