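import Pool.Agent.H4.NK.Lau

set_option autoImplicit false

/-!
Every idempotent matrix over a group ring lifts to an idempotent matrix over the group ring of a
finitely presented group.
-/

namespace Pool.Agent.H4.OG

open CategoryTheory Pool.Agent.Y75.NK

section

variable {E : Type} [Group E] (S : Finset E)

open Classical in
/-- The set of generators. -/
noncomputable def gens : Finset E := S ∪ (S ×ˢ S).image (fun p => p.1 * p.2)

theorem mem_gens_left {a : E} (ha : a ∈ S) : a ∈ gens S := by
  classical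
  exact Finset.mem_union_left _ ha

theorem mem_gens_mul {a b : E} (ha : a ∈ S) (hb : b ∈ S) : a * b ∈ gens S := by
  classical
  refine Finset.mem_union_right _ (Finset.mem_image.2 ⟨(a, b), Finset.mem_product.2 ⟨ha, hb⟩, rfl⟩)

/-- The relators `[a][b][ab]⁻¹`. -/
def rels : Set (FreeGroup (gens S)) :=
  Set.range fun p : S × S =>
    FreeGroup.of (⟨p.1, mem_gens_left S p.1.2⟩ : gens S) *
      FreeGroup.of (⟨p.2, mem_gens_left S p.2.2⟩ : gens S) *
      (FreeGroup.of (⟨p.1 * p.2, mem_gens_mul S p.1.2 p.2.2⟩ : gens S))⁻¹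

theorem rels_finite : (rels S).Finite := Set.finite_range _

/-- The finitely presented group. -/
abbrev PG : Type := PresentedGroup (rels S)

instance : Group.IsFinitelyPresented (PG S) := by
  have := (rels_finite S).to_subtype
  exact inferInstanceAs (Group.IsFinitelyPresented (PresentedGroup (rels S)))

/-- The homomorphism to the given group. -/
def toE : PG S →* E :=
  PresentedGroup.toGroup (f := fun a : gens S => (a : E)) (by
    rintro _ ⟨p, rfl⟩
    simp)

open Classical in
/-- The section. -/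
noncomputable def sec (g : E) : PG S :=
  if h : g ∈ gens S then PresentedGroup.of ⟨g, h⟩ else 1

theorem toE_sec {g : E} (h : g ∈ gens S) : toE S (sec S g) = g := by
  unfold sec toE
  rw [dif_pos h, PresentedGroup.toGroup.of]

theorem sec_mul {a b : E} (ha : a ∈ S) (hb : b ∈ S) : sec S (a * b) = sec S a * sec S b := by
  unfold sec
  rw [dif_pos (mem_gens_mul S ha hb), dif_pos (mem_gens_left S ha), dif_pos (mem_gens_left S hb)]
  symm
  rw [← mul_inv_eq_one]
  exact PresentedGroup.one_of_mem (rels := rels S) ⟨(⟨a, ha⟩, ⟨b, hb⟩), rfl⟩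

variable {R : Type} [Ring R]

/-- The lift of an element. -/
noncomputable def lft : MonoidAlgebra R E →+ MonoidAlgebra R (PG S) where
  toFun := MonoidAlgebra.mapDomain (sec S)
  map_zero' := MonoidAlgebra.mapDomain_zero _
  map_add' := MonoidAlgebra.mapDomain_add _

theorem lft_single (a : E) (r : R) :
    lft S (MonoidAlgebra.single a r) = MonoidAlgebra.single (sec S a) r :=
  MonoidAlgebra.mapDomain_single

omit [Group E] in
theorem sum_eq (x : MonoidAlgebra R E) :
    x = ∑ a ∈ x.coeff.support, MonoidAlgebra.single a (x.coeff a) :=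
  (MonoidAlgebra.sum_coeff_single x).symm

theorem lft_eq (z : MonoidAlgebra R E) : lft S z =
    ∑ a ∈ z.coeff.support, MonoidAlgebra.single (sec S a) (z.coeff a) := by
  conv_lhs => rw [sum_eq z]
  rw [map_sum]
  exact Finset.sum_congr rfl fun a _ => lft_single S _ _

theorem lft_mul (x y : MonoidAlgebra R E) (hx : x.coeff.support ⊆ S)
    (hy : y.coeff.support ⊆ S) : lft S (x * y) = lft S x * lft S y := by
  have h1 : x * y = ∑ a ∈ x.coeff.support, ∑ b ∈ y.coeff.support,
      MonoidAlgebra.single (a * b) (x.coeff a * y.coeff b) := by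
    conv_lhs => rw [sum_eq x, sum_eq y]
    rw [Finset.sum_mul_sum]
    refine Finset.sum_congr rfl fun a _ => Finset.sum_congr rfl fun b _ => ?_
    rw [MonoidAlgebra.single_mul_single]
  rw [lft_eq S x, lft_eq S y, h1, Finset.sum_mul_sum, map_sum]
  refine Finset.sum_congr rfl fun a ha => ?_
  rw [map_sum]
  refine Finset.sum_congr rfl fun b hb => ?_
  rw [lft_single, MonoidAlgebra.single_mul_single, sec_mul S (hx ha) (hy hb)]

theorem toE_lft (x : MonoidAlgebra R E) (hx : x.coeff.support ⊆ S) :
    MonoidAlgebra.mapDomainRingHom R (toE S) (lft S x) = x := by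
  rw [lft_eq, map_sum]
  conv_rhs => rw [sum_eq x]
  refine Finset.sum_congr rfl fun a ha => ?_
  rw [MonoidAlgebra.mapDomainRingHom_apply, MonoidAlgebra.mapDomain_single,
    toE_sec S (mem_gens_left S (hx ha))]

/-- **Lifting idempotents.** -/
theorem lift_idem (e : Idem (MonoidAlgebra R E)) :
    ∃ (P : Type) (_ : Group P) (_ : Group.IsFinitelyPresented P) (f : P →* E)
      (e' : Idem (MonoidAlgebra R P)), e'.map (MonoidAlgebra.mapDomainRingHom R f) = e := by
  classical
  let S : Finset E := Finset.univ.biUnion fun i => Finset.univ.biUnion fun j =>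
    (e.e i j).coeff.support
  have hS : ∀ i j, (e.e i j).coeff.support ⊆ S := by
    intro i j a ha
    exact Finset.mem_biUnion.2 ⟨i, Finset.mem_univ _, Finset.mem_biUnion.2
      ⟨j, Finset.mem_univ _, ha⟩⟩
  refine ⟨PG S, inferInstance, inferInstance, toE S,
    ⟨e.n, e.e.map (lft S), ?_⟩, ?_⟩
  · ext1 i j
    rw [Matrix.mul_apply, Matrix.map_apply]
    conv_rhs => rw [← e.idem, Matrix.mul_apply, map_sum]
    refine Finset.sum_congr rfl fun k _ => ?_
    rw [Matrix.map_apply, Matrix.map_apply, lft_mul S _ _ (hS i k) (hS k j)]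
  · obtain ⟨n, M, hM⟩ := e
    unfold Idem.map
    congr 1
    ext1 i j
    exact toE_lft S _ (hS i j)

end

/-- Every homomorphism `h : Q → ℤᵐ × G` factors through `ℤᵐ × Q`. -/
theorem factor (Q : GrpCat.{0}) : ∀ (m : ℕ) (G : GrpCat.{0}) (h : Q ⟶ (EF m).obj G),
    ∃ (f : Q ⟶ G) (k : Q ⟶ (EF m).obj Q), k ≫ (EF m).map f = h := by
  intro m
  induction m with
  | zero => exact fun G h => ⟨h, 𝟙 _, rfl⟩
  | succ m ih =>
    intro G h
    obtain ⟨u, k, hk⟩ := ih (tz.obj G) h
    let w : Q ⟶ tz.obj Q := GrpCat.ofHom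
      (MonoidHom.prod ((MonoidHom.fst (Multiplicative ℤ) G).comp u.hom) (MonoidHom.id Q))
    let f : Q ⟶ G := GrpCat.ofHom ((MonoidHom.snd (Multiplicative ℤ) G).comp u.hom)
    refine ⟨f, k ≫ (EF m).map w, ?_⟩
    change (k ≫ (EF m).map w) ≫ (EF m).map (tz.map f) = h
    have hw : w ≫ tz.map f = u := by
      apply GrpCat.hom_ext
      apply MonoidHom.ext
      intro x
      rfl
    rw [Category.assoc, ← Functor.map_comp, hw, hk]

/-- Every class is induced from a finitely presented group. -/
theorem kclT_lift (R : Type) [Ring R] (m : ℕ) (G : GrpCat.{0})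
    (e : Idem (MonoidAlgebra R ((EF m).obj G))) :
    ∃ (P : Type) (_ : Group P) (_ : Group.IsFinitelyPresented P) (f : P →* G)
      (x : (Kneg m).obj ((gr R).obj (GrpCat.of P))),
      ((gr R ⋙ Kneg m).map (GrpCat.ofHom f)).hom x = ((kclT R m).app G).hom (cls e) := by
  obtain ⟨P, iP, hP, h, e', he⟩ := lift_idem e
  obtain ⟨f, k, hk⟩ := factor (GrpCat.of P) m G (GrpCat.ofHom h)
  refine ⟨P, iP, hP, f.hom, ((kclT R m).app (GrpCat.of P)).hom
    (cls (e'.map (MonoidAlgebra.mapDomainRingHom R k.hom))), ?_⟩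
  have h1 := (kclT R m).naturality f
  have h2 := congrArg (fun g => g.hom (cls (e'.map (MonoidAlgebra.mapDomainRingHom R k.hom)))) h1
  refine h2.symm.trans ?_
  change ((kclT R m).app G).hom (cls ((e'.map (MonoidAlgebra.mapDomainRingHom R k.hom)).map
    (MonoidAlgebra.mapDomainRingHom R ((EF m).map f).hom))) = _
  have h3 : (e'.map (MonoidAlgebra.mapDomainRingHom R k.hom)).map
      (MonoidAlgebra.mapDomainRingHom R ((EF m).map f).hom) = e := by
    have h4 : (k ≫ (EF m).map f).hom = h := by rw [hk]; rfl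
    have h5 : (MonoidAlgebra.mapDomainRingHom R ((EF m).map f).hom).comp
        (MonoidAlgebra.mapDomainRingHom R k.hom) = MonoidAlgebra.mapDomainRingHom R h := by
      rw [← h4, ← MonoidAlgebra.mapDomainRingHom_comp]
      rfl
    rw [← he, ← h5]
    rfl
  exact congrArg (fun z => ((kclT R m).app G).hom (cls z)) h3

end Pool.Agent.H4.OG
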