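import Pool.Agent.H4.OG.Cnt

set_option autoImplicit false

/-!
One group decides the vanishing of the negative `K`-groups.
-/

namespace Pool.Agent.H4.OG

open CategoryTheory Pool.Agent.Y75.NK Pool.Agent.H84.W Pool.Agent.H4.Reg

/-- `K_{-m}(R[G]) = 0`. -/
def Zero (R : Type) [Ring R] (m : ℕ) (G : Type) [Group G] : Prop := Subsingleton (KG R m G)

theorem zero_all (R : Type) [Ring R] (m : ℕ) (h : Zero R m UU) (G : Type) [Group G] (hG : TF G) :
    Zero R m G := by
  refine zero_colim R m ?_ G hG
  intro P _ _
  obtain ⟨i, r, hir⟩ := retr_U P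
  exact zero_retr R m i r hir h

theorem const_all (R : Type) [Ring R] (m : ℕ) (h : Const R m UU) (G : Type) [Group G]
    (hG : TF G) : Const R m G := by
  refine const_colim R m ?_ G hG
  intro P _ _
  obtain ⟨i, r, hir⟩ := retr_U P
  exact const_retr R m i r hir h

theorem tf_int : TF (Multiplicative ℤ) := by
  intro g hg
  obtain ⟨n, hn, h⟩ := isOfFinOrder_iff_pow_eq_one.1 hg
  have h2 : (n : ℤ) * Multiplicative.toAdd g = 0 := by
    have := congrArg Multiplicative.toAdd h
    rw [toAdd_pow, toAdd_one, nsmul_eq_mul] at this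
    exact this
  rcases mul_eq_zero.1 h2 with h3 | h3
  · omega
  · exact Multiplicative.toAdd.injective h3

theorem zero_next (R : Type) [Ring R] (m : ℕ)
    (h : ∀ (G : Type) [Group G], TF G → Const R m G) (G : Type) [Group G] (hG : TF G) :
    Zero R (m + 1) G :=
  zero_succ R m G (h _ (prod_tf tf_int hG))

theorem const_of_zero (R : Type) [Ring R] (m : ℕ) (G : Type) [Group G] (h : Zero R m G) :
    Const R m G := fun _ => ⟨0, @Subsingleton.elim _ h _ _⟩

theorem zero_ge (R : Type) [Ring R] (m : ℕ) (h : Zero R m UU) (k : ℕ) (hk : m ≤ k) (G : Type)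
    [Group G] (hG : TF G) : Zero R k G := by
  induction k, hk using Nat.le_induction generalizing G with
  | base => exact zero_all R m h G hG
  | succ k _ ih =>
    exact zero_next R k (fun G _ hG => const_of_zero R k G (ih G hG)) G hG

end Pool.Agent.H4.OG
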