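import Pool.Agent.H4.OG.Dec

set_option autoImplicit false

/-!
Shifting the degree.
-/

namespace Pool.Agent.H4.OG

open CategoryTheory Pool.Agent.Y75.NK Pool.Agent.H84.W

section

variable (R : Type) [Ring R] (m : ℕ)

/-- The canonical surjection from `K_{-m}(R[ℤ × G])` to `K_{-m-1}(R[G])`. -/
noncomputable def shift (G : Type) [Group G] :
    KG R m (Multiplicative ℤ × G) →+ KG R (m + 1) G :=
  ((Kneg m).map ((cur R).inv.app (GrpCat.of G)) ≫ (quotT (Kneg m)).app _).hom

theorem shift_surj (G : Type) [Group G] : Function.Surjective (shift R m G) := by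
  have h1 : (cur R).hom.app (GrpCat.of G) ≫ (cur R).inv.app (GrpCat.of G) = 𝟙 _ :=
    Iso.hom_inv_id_app _ _
  have h2 : (Kneg m).map ((cur R).hom.app (GrpCat.of G)) ≫
      (Kneg m).map ((cur R).inv.app (GrpCat.of G)) = 𝟙 _ := by
    rw [← CategoryTheory.Functor.map_comp, h1, CategoryTheory.Functor.map_id]
  intro x
  obtain ⟨y, rfl⟩ := QuotientAddGroup.mk'_surjective _ x
  refine ⟨((Kneg m).map ((cur R).hom.app (GrpCat.of G))).hom y, ?_⟩
  have h3 := congrArg (fun z => z.hom y) h2
  exact congrArg (QuotientAddGroup.mk' _) h3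

/-- The unit of the polynomial ring. -/
noncomputable def cst (A : Type) [Ring A] : A →+* MonoidAlgebra A (Multiplicative ℕ) :=
  MonoidAlgebra.singleOneRingHom

theorem ring_eq (G : Type) [Group G] :
    RingCat.ofHom (MonoidAlgebra.mapDomainRingHom R (1 : Unit →* Multiplicative ℤ × G)) ≫
        (cur R).inv.app (GrpCat.of G) =
      (RingCat.ofHom (MonoidAlgebra.mapDomainRingHom R (1 : Unit →* G)) ≫
        RingCat.ofHom (cst (MonoidAlgebra R G))) ≫
        plus.app (RingCat.of (MonoidAlgebra R G)) := by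
  apply RingCat.hom_ext
  apply RingHom.ext
  intro x
  change (MonoidAlgebra.curryRingEquiv (R := R) (M := Multiplicative ℤ) (N := G))
      (MonoidAlgebra.mapDomainRingHom R (1 : Unit →* Multiplicative ℤ × G) x) =
    MonoidAlgebra.mapDomainRingHom _ (AddMonoidHom.toMultiplicative (Nat.castAddMonoidHom ℤ))
      (MonoidAlgebra.singleOneRingHom (MonoidAlgebra.mapDomainRingHom R (1 : Unit →* G) x))
  induction x using MonoidAlgebra.induction_linear with
  | zero => simp only [map_zero]
  | add x y hx hy => simp only [map_add, hx, hy]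
  | single m a =>
    have h1 : MonoidAlgebra.curryRingEquiv (R := R) (MonoidAlgebra.single
        ((1, 1) : Multiplicative ℤ × G) a) = MonoidAlgebra.single 1 (MonoidAlgebra.single 1 a) :=
      MonoidAlgebra.curryRingEquiv_single _ _ _
    have h2 : MonoidAlgebra.mapDomainRingHom _
        (AddMonoidHom.toMultiplicative (Nat.castAddMonoidHom ℤ))
        (MonoidAlgebra.singleOneRingHom (MonoidAlgebra.mapDomainRingHom R (1 : Unit →* G)
          (MonoidAlgebra.single m a))) =
        MonoidAlgebra.single 1 (MonoidAlgebra.single 1 a) := by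
      simp [MonoidAlgebra.singleOneRingHom]
    rw [h2, ← h1]
    congr 1
    simp only [MonoidAlgebra.mapDomainRingHom_apply, MonoidAlgebra.mapDomain_single,
      MonoidHom.one_apply]
    rfl

theorem map_comp2 (F : RingCat.{0} ⥤ AddCommGrpCat.{0}) {A B C : RingCat.{0}} (f : A ⟶ B)
    (g : B ⟶ C) (x : F.obj A) : (F.map (f ≫ g)).hom x = (F.map g).hom ((F.map f).hom x) := by
  rw [F.map_comp]
  rfl

theorem shift_const (G : Type) [Group G] (x : KG R m Unit) :
    shift R m G (kmap R m (1 : Unit →* Multiplicative ℤ × G) x) = 0 := by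
  have h := (map_comp2 (Kneg m) _ _ x).symm.trans
    ((congrArg (fun g => ((Kneg m).map g).hom x) (ring_eq R G)).trans
      (map_comp2 (Kneg m) _ _ x))
  refine (QuotientAddGroup.eq_zero_iff _).2 ?_
  refine AddSubgroup.mem_sup_left ⟨((Kneg m).map
    (RingCat.ofHom (MonoidAlgebra.mapDomainRingHom R (1 : Unit →* G)) ≫
        RingCat.ofHom (cst (MonoidAlgebra R G)))).hom x, ?_⟩
  exact h.symm

theorem zero_succ (G : Type) [Group G] (h : Const R m (Multiplicative ℤ × G)) :
    Subsingleton (KG R (m + 1) G) := by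
  have h1 : ∀ y : KG R (m + 1) G, y = 0 := by
    intro y
    obtain ⟨x, rfl⟩ := shift_surj R m G y
    obtain ⟨z, rfl⟩ := h x
    exact shift_const R m G z
  exact ⟨fun a b => by rw [h1 a, h1 b]⟩

end

end Pool.Agent.H4.OG
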